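import Pool.Agent.W707.FE.A

/-!
# Expansion of the integral of a family holomorphic in a small parameter
-/

set_option autoImplicit false

namespace Pool.Agent.W364.FE

open Filter MeasureTheory
open scoped Real Topology Nat

/-- Cauchy's bound for the Taylor coefficients. -/
theorem coeff_bound {f : ℂ → ℂ} {R D : ℝ} (hR : 0 < R) (hf : DifferentiableOn ℂ f (Metric.ball 0 R))
    (hb : ∀ z, ‖z‖ < R → ‖f z‖ ≤ D) (j : ℕ) :
    ‖iteratedDeriv j f 0 / (j ! : ℂ)‖ ≤ D * (4 / (3 * R)) ^ j := by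
  have h1 := Complex.norm_iteratedDeriv_le_of_forall_mem_sphere_norm_le (c := (0 : ℂ))
    (R := 3 * R / 4) (C := D) (f := f) j (by positivity)
    (hf.diffContOnCl_ball (Metric.closedBall_subset_ball (by linarith))) (fun z hz => by
      apply hb
      rw [mem_sphere_zero_iff_norm] at hz
      rw [hz]
      linarith)
  have hj : (0 : ℝ) < (j ! : ℝ) := by positivity
  rw [norm_div, Complex.norm_natCast, div_le_iff₀ hj]
  refine h1.trans (le_of_eq ?_)
  rw [div_pow, div_pow, mul_pow]
  field_simp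

/-- The Taylor remainder. -/
theorem taylor_bound {f : ℂ → ℂ} {R D : ℝ} (hR : 0 < R) (hf : DifferentiableOn ℂ f (Metric.ball 0 R))
    (hb : ∀ z, ‖z‖ < R → ‖f z‖ ≤ D) (J : ℕ) (z : ℂ) (hz : ‖z‖ ≤ R / 2) :
    ‖f z - ∑ j ∈ Finset.range J, z ^ j * (iteratedDeriv j f 0 / (j ! : ℂ))‖ ≤
      3 * D * (4 / (3 * R) * ‖z‖) ^ J := by
  have hD : 0 ≤ D := (norm_nonneg _).trans (hb 0 (by simpa using hR))
  have h1 := Complex.hasSum_taylorSeries_on_ball hf (z := z) (by
    rw [mem_ball_zero_iff]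
    linarith)
  have h2 : HasSum (fun n : ℕ => z ^ n * (iteratedDeriv n f 0 / (n ! : ℂ))) (f z) := by
    refine h1.congr_fun fun n => ?_
    simp only [sub_zero, smul_eq_mul]
    ring
  have h3 := (hasSum_nat_add_iff' J).mpr h2
  rw [← h3.tsum_eq]
  set q : ℝ := 4 / (3 * R) * ‖z‖ with hq
  have hq0 : 0 ≤ q := by positivity
  have hq1 : q ≤ 2 / 3 := by
    rw [hq, div_mul_eq_mul_div, div_le_iff₀ (by positivity)]
    linarith
  have h4 : HasSum (fun n : ℕ => D * q ^ J * q ^ n) (D * q ^ J * (1 - q)⁻¹) :=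
    (hasSum_geometric_of_lt_one hq0 (by linarith)).mul_left _
  refine (tsum_of_norm_bounded h4 fun n => ?_).trans ?_
  · rw [norm_mul, norm_pow]
    have h5 := coeff_bound hR hf hb (n + J)
    calc ‖z‖ ^ (n + J) * ‖iteratedDeriv (n + J) f 0 / ((n + J) ! : ℂ)‖ ≤
        ‖z‖ ^ (n + J) * (D * (4 / (3 * R)) ^ (n + J)) :=
          mul_le_mul_of_nonneg_left h5 (by positivity)
      _ = D * q ^ J * q ^ n := by
          rw [mul_assoc, ← pow_add, hq, mul_pow, add_comm J n]
          ring
  · have h6 : (1 - q)⁻¹ ≤ 3 := by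
      rw [inv_le_comm₀ (by linarith) (by norm_num)]
      linarith
    calc D * q ^ J * (1 - q)⁻¹ ≤ D * q ^ J * 3 := mul_le_mul_of_nonneg_left h6 (by positivity)
      _ = _ := by ring

theorem lap : Pool.Agent.W707.FE.S_LAP := by
  intro X _ μ w D E r ρ hr hρ hw hw1 hDw hmeas hdiff hb J
  set c : ℕ → X → ℂ := fun j t => iteratedDeriv j (fun z => E z t) 0 / (j ! : ℂ) with hc
  have hw0 : ∀ t, 0 < w t := fun t => lt_of_lt_of_le one_pos (hw1 t)
  have hR : ∀ t, 0 < r / w t := fun t => div_pos hr (hw0 t)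
  have hD0 : ∀ t, 0 ≤ D t := fun t => (norm_nonneg _).trans (hb t 0 (by simpa using hR t))
  set κ : ℝ := 4 / (3 * r) with hκ
  have hκ0 : 0 ≤ κ := by positivity
  have e1 : ∀ t, 4 / (3 * (r / w t)) = κ * w t := by
    intro t
    have := (hw0 t).ne'
    rw [hκ]
    field_simp
  have hcb : ∀ j t, ‖c j t‖ ≤ κ ^ j * (D t * w t ^ j) := by
    intro j t
    refine (coeff_bound (hR t) (hdiff t) (hb t) j).trans (le_of_eq ?_)
    rw [e1, mul_pow]
    ring
  have hTb : ∀ (K : ℕ) (ν : ℝ) (t : X), 0 < ν → ν * w t ≤ r / 2 →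
      ‖E ν t - ∑ j ∈ Finset.range K, (ν : ℂ) ^ j * c j t‖ ≤
        3 * κ ^ K * ν ^ K * (D t * w t ^ K) := by
    intro K ν t hν hνw
    have h1 := taylor_bound (hR t) (hdiff t) (hb t) K (ν : ℂ) (by
      rw [Complex.norm_real, Real.norm_eq_abs, abs_of_pos hν, div_div, mul_comm (w t), ← div_div,
        le_div_iff₀ (hw0 t)]
      exact hνw)
    refine h1.trans (le_of_eq ?_)
    rw [e1, Complex.norm_real, Real.norm_eq_abs, abs_of_pos hν, mul_pow, mul_pow]
    ring
  -- measurability of the coefficients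
  have hcm : ∀ j, AEStronglyMeasurable (c j) μ := by
    intro j
    induction j using Nat.strong_induction_on with
    | _ j ih =>
      have hseq : Tendsto (fun k : ℕ => 1 / ((k : ℝ) + 1)) atTop (𝓝 0) :=
        tendsto_one_div_add_atTop_nhds_zero_nat
      refine aestronglyMeasurable_of_tendsto_ae (u := atTop) (f := fun k : ℕ => fun t =>
        ({t | (1 / ((k : ℝ) + 1)) * w t < r}.indicator (E ((1 / ((k : ℝ) + 1) : ℝ) : ℂ)) t -
          ∑ i ∈ Finset.range j, ((1 / ((k : ℝ) + 1) : ℝ) : ℂ) ^ i * c i t) /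
            ((1 / ((k : ℝ) + 1) : ℝ) : ℂ) ^ j) (fun k => ?_) ?_
      · have hk : (0 : ℝ) < 1 / ((k : ℝ) + 1) := by positivity
        have hms : MeasurableSet {t | (1 / ((k : ℝ) + 1)) * w t < r} :=
          measurableSet_lt (hw.const_mul _) measurable_const
        have h1 : AEStronglyMeasurable ({t | (1 / ((k : ℝ) + 1)) * w t < r}.indicator
            (E ((1 / ((k : ℝ) + 1) : ℝ) : ℂ))) μ :=
          (aestronglyMeasurable_indicator_iff hms).mpr (hmeas _ hk)
        have h2 : AEStronglyMeasurable (fun t => ∑ i ∈ Finset.range j,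
            ((1 / ((k : ℝ) + 1) : ℝ) : ℂ) ^ i * c i t) μ := by
          refine Finset.aestronglyMeasurable_fun_sum _ fun i hi => ?_
          exact (ih i (Finset.mem_range.mp hi)).const_mul _
        simp_rw [div_eq_mul_inv]
        simp_rw [div_eq_mul_inv] at h1 h2
        exact (h1.sub h2).mul_const _
      · refine Eventually.of_forall fun t => ?_
        have hev : ∀ᶠ k : ℕ in atTop, (1 / ((k : ℝ) + 1)) * w t ≤ r / 2 := by
          have : Tendsto (fun k : ℕ => (1 / ((k : ℝ) + 1)) * w t) atTop (𝓝 (0 * w t)) :=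
            hseq.mul_const _
          rw [zero_mul] at this
          exact this.eventually_le_const (by positivity)
        rw [tendsto_iff_norm_sub_tendsto_zero]
        refine squeeze_zero' (g := fun k : ℕ => 3 * κ ^ (j + 1) * (D t * w t ^ (j + 1)) *
          (1 / ((k : ℝ) + 1))) (Eventually.of_forall fun k => norm_nonneg _) ?_ ?_
        · filter_upwards [hev] with k hk
          have hk0 : (0 : ℝ) < 1 / ((k : ℝ) + 1) := by positivity
          set ν : ℝ := 1 / ((k : ℝ) + 1) with hν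
          have h1 := hTb (j + 1) ν t hk0 hk
          have hmem : t ∈ {t | ν * w t < r} := by
            show ν * w t < r
            linarith
          rw [Set.indicator_of_mem hmem]
          have hνc : (ν : ℂ) ≠ 0 := by exact_mod_cast hk0.ne'
          have h2 : (E ν t - ∑ i ∈ Finset.range j, (ν : ℂ) ^ i * c i t) / (ν : ℂ) ^ j - c j t =
              (E ν t - ∑ i ∈ Finset.range (j + 1), (ν : ℂ) ^ i * c i t) / (ν : ℂ) ^ j := by
            rw [Finset.sum_range_succ]
            field_simp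
            ring
          rw [h2, norm_div, norm_pow, Complex.norm_real, Real.norm_eq_abs, abs_of_pos hk0,
            div_le_iff₀ (by positivity)]
          refine h1.trans (le_of_eq ?_)
          ring
        · have := hseq.const_mul (3 * κ ^ (j + 1) * (D t * w t ^ (j + 1)))
          rwa [mul_zero] at this
  have hci : ∀ j, Integrable (c j) μ := fun j =>
    ((hDw j).const_mul (κ ^ j)).mono' (hcm j) (Eventually.of_forall fun t => hcb j t)
  set A : ℝ := ∫ t, D t * w t ^ J ∂μ with hA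
  have hA0 : 0 ≤ A := integral_nonneg fun t => mul_nonneg (hD0 t) (by have := hw0 t; positivity)
  refine ⟨3 * κ ^ J * A + ∑ j ∈ Finset.range J, κ ^ j / ρ ^ (J - j) * A, fun ν S hν hS hSr hSρ => ?_⟩
  have hEi : IntegrableOn (E ν) S μ := by
    refine Integrable.mono' (g := fun t => D t * w t ^ 0) (hDw 0).integrableOn ?_ ?_
    · refine (hmeas ν hν).mono_set fun t ht => ?_
      show ν * w t < r
      have := hSr t ht
      linarith
    · refine (ae_restrict_iff' hS).mpr (Eventually.of_forall fun t ht => ?_)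
      rw [pow_zero, mul_one]
      apply hb
      rw [Complex.norm_real, Real.norm_eq_abs, abs_of_pos hν, lt_div_iff₀ (hw0 t)]
      have := hSr t ht
      linarith
  have hcs : ∀ j, ∫ t, c j t ∂μ = ∫ t in S, c j t ∂μ + ∫ t in Sᶜ, c j t ∂μ := fun j =>
    (integral_add_compl hS (hci j)).symm
  have hsum : (∫ t in S, E ν t ∂μ) - ∑ j ∈ Finset.range J, (ν : ℂ) ^ j * ∫ t, c j t ∂μ =
      (∫ t in S, (E ν t - ∑ j ∈ Finset.range J, (ν : ℂ) ^ j * c j t) ∂μ) -
      ∑ j ∈ Finset.range J, (ν : ℂ) ^ j * ∫ t in Sᶜ, c j t ∂μ := by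
    rw [integral_sub hEi (integrable_finsetSum _ fun j _ => ((hci j).integrableOn).const_mul _),
      integral_finsetSum _ fun j _ => ((hci j).integrableOn).const_mul _]
    simp_rw [integral_const_mul, hcs, mul_add, Finset.sum_add_distrib]
    ring
  rw [hsum]
  refine (norm_sub_le _ _).trans ?_
  have hT1 : ‖∫ t in S, (E ν t - ∑ j ∈ Finset.range J, (ν : ℂ) ^ j * c j t) ∂μ‖ ≤
      3 * κ ^ J * A * ν ^ J := by
    calc ‖∫ t in S, (E ν t - ∑ j ∈ Finset.range J, (ν : ℂ) ^ j * c j t) ∂μ‖ ≤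
        ∫ t in S, 3 * κ ^ J * ν ^ J * (D t * w t ^ J) ∂μ := by
          refine norm_integral_le_of_norm_le ((hDw J).integrableOn.const_mul _) ?_
          exact (ae_restrict_iff' hS).mpr (Eventually.of_forall fun t ht => hTb J ν t hν (hSr t ht))
      _ ≤ ∫ t, 3 * κ ^ J * ν ^ J * (D t * w t ^ J) ∂μ := by
          refine setIntegral_le_integral ((hDw J).const_mul _) (Eventually.of_forall fun t => ?_)
          have := hw0 t
          have := hD0 t
          positivity
      _ = _ := by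
          rw [integral_const_mul]
          ring
  have hT2 : ∀ j ∈ Finset.range J, ‖(ν : ℂ) ^ j * ∫ t in Sᶜ, c j t ∂μ‖ ≤
      κ ^ j / ρ ^ (J - j) * A * ν ^ J := by
    intro j hj
    have hjJ : j < J := Finset.mem_range.mp hj
    have hb2 : ∀ t ∈ Sᶜ, ‖c j t‖ ≤ κ ^ j * (ν ^ (J - j) / ρ ^ (J - j)) * (D t * w t ^ J) := by
      intro t ht
      refine (hcb j t).trans ?_
      have h1 : ρ ≤ ν * w t := hSρ t ht
      have h2 : 1 ≤ (ν * w t / ρ) ^ (J - j) := one_le_pow₀ ((one_le_div hρ).mpr h1)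
      have h3 : 0 ≤ κ ^ j * (D t * w t ^ j) := by
        have := hw0 t
        have := hD0 t
        positivity
      calc κ ^ j * (D t * w t ^ j) ≤ κ ^ j * (D t * w t ^ j) * (ν * w t / ρ) ^ (J - j) :=
            le_mul_of_one_le_right h3 h2
        _ = _ := by
            have : w t ^ J = w t ^ j * w t ^ (J - j) := by
              rw [← pow_add, Nat.add_sub_cancel' hjJ.le]
            rw [this, div_pow, mul_pow]
            ring
    have h4 : ‖∫ t in Sᶜ, c j t ∂μ‖ ≤ κ ^ j * (ν ^ (J - j) / ρ ^ (J - j)) * A := by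
      calc ‖∫ t in Sᶜ, c j t ∂μ‖ ≤
          ∫ t in Sᶜ, κ ^ j * (ν ^ (J - j) / ρ ^ (J - j)) * (D t * w t ^ J) ∂μ := by
            refine norm_integral_le_of_norm_le ((hDw J).integrableOn.const_mul _) ?_
            exact (ae_restrict_iff' hS.compl).mpr (Eventually.of_forall hb2)
        _ ≤ ∫ t, κ ^ j * (ν ^ (J - j) / ρ ^ (J - j)) * (D t * w t ^ J) ∂μ := by
            refine setIntegral_le_integral ((hDw J).const_mul _) (Eventually.of_forall fun t => ?_)
            have := hw0 t
            have := hD0 t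
            positivity
        _ = _ := by rw [integral_const_mul]
    rw [norm_mul, norm_pow, Complex.norm_real, Real.norm_eq_abs, abs_of_pos hν]
    calc ν ^ j * ‖∫ t in Sᶜ, c j t ∂μ‖ ≤ ν ^ j * (κ ^ j * (ν ^ (J - j) / ρ ^ (J - j)) * A) :=
          mul_le_mul_of_nonneg_left h4 (by positivity)
      _ = _ := by
          have : ν ^ J = ν ^ j * ν ^ (J - j) := by
            rw [← pow_add, Nat.add_sub_cancel' hjJ.le]
          rw [this]
          ring
  calc ‖∫ t in S, (E ν t - ∑ j ∈ Finset.range J, (ν : ℂ) ^ j * c j t) ∂μ‖ +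
      ‖∑ j ∈ Finset.range J, (ν : ℂ) ^ j * ∫ t in Sᶜ, c j t ∂μ‖ ≤
      3 * κ ^ J * A * ν ^ J + ∑ j ∈ Finset.range J, κ ^ j / ρ ^ (J - j) * A * ν ^ J :=
        add_le_add hT1 ((norm_sum_le _ _).trans (Finset.sum_le_sum hT2))
    _ = _ := by rw [add_mul, Finset.sum_mul]

end Pool.Agent.W364.FE
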